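import Pool.Agent.H65.CRZ.TL
import Pool.Agent.H18.PZ.CA
import Pool.Agent.H18.PZ.RC

/-!
Module AG: the argument principle for a rectangle with zeros on the left side.
-/

set_option autoImplicit false

open Complex MeasureTheory Set Filter Topology

namespace Pool.Agent.H68.CRZ

open Pool.Agent.H65.CRZ Pool.Agent.H18.PZ

lemma im_integral {φ : ℝ → ℂ} {u v : ℝ} (h : ContinuousOn φ (uIcc u v)) :
    (∫ t in u..v, φ t).im = ∫ t in u..v, (φ t).im := by
  have := (Complex.imCLM.intervalIntegral_comp_comm (h.intervalIntegrable (μ := volume))).symm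
  simpa using this

/-- the complex integral over the three sides -/
noncomputable def cp (φ : ℂ → ℂ) (a b c d : ℝ) : ℂ :=
  (∫ x in a..b, φ (x + c * I)) + I * (∫ t in c..d, φ (b + t * I)) - ∫ x in a..b, φ (x + d * I)

lemma cp_im {φ : ℂ → ℂ} {a b c d : ℝ} (hab : a ≤ b) (hcd : c ≤ d)
    (h1 : ContinuousOn (fun x : ℝ => φ (x + c * I)) (Icc a b))
    (h2 : ContinuousOn (fun t : ℝ => φ (b + t * I)) (Icc c d))
    (h3 : ContinuousOn (fun x : ℝ => φ (x + d * I)) (Icc a b)) :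
    (cp φ a b c d).im = (∫ x in a..b, (φ (x + c * I)).im) + (∫ t in c..d, (φ (b + t * I)).re) -
      ∫ x in a..b, (φ (x + d * I)).im := by
  unfold cp
  rw [sub_im, add_im, I_mul_im, im_integral (by rwa [uIcc_of_le hab]),
    im_integral (by rwa [uIcc_of_le hab]), re_integral (by rwa [uIcc_of_le hcd])]

/-- the linear factor -/
lemma cp_lin {a b c d : ℝ} {z : ℂ} (hab : a < b) (hz : z.re = a) (h3 : c < z.im)
    (h4 : z.im < d) : (cp (fun s => 1 / (s - z)) a b c d).im = Real.pi := by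
  have hcd : c ≤ d := by linarith
  have e1 : (∫ x in a..b, 1 / ((x : ℂ) + c * I - z)) =
      Complex.log (I * ((c * I - z) + b * 1)) - Complex.log (I * ((c * I - z) + a * 1)) := by
    rw [← side (c * I - z) 1 I a b hab.le]
    · rw [one_mul]
      congr 1
      funext x
      congr 1
      ring
    · intro t _
      simp
      linarith
  have e2 : I * (∫ t in c..d, 1 / ((b : ℂ) + t * I - z)) =
      Complex.log (1 * ((b - z) + d * I)) - Complex.log (1 * ((b - z) + c * I)) := by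
    rw [← side (b - z) I 1 c d hcd]
    · congr 2
      funext x
      congr 1
      ring
    · intro t _
      simp
      linarith
  have e3 : (∫ x in a..b, 1 / ((x : ℂ) + d * I - z)) =
      Complex.log (-I * ((d * I - z) + b * 1)) - Complex.log (-I * ((d * I - z) + a * 1)) := by
    rw [← side (d * I - z) 1 (-I) a b hab.le]
    · rw [one_mul]
      congr 1
      funext x
      congr 1
      ring
    · intro t _
      simp
      linarith
  have k1 := corner (w := (b - z) + d * I) (by simp; linarith) (by simp; linarith)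
  have k4 := corner (w := I * ((b - z) + c * I)) (by simp; linarith) (by simp; linarith)
  unfold cp
  rw [e1, e2, e3]
  have r1 : (I * ((c * I - z) + b * 1) : ℂ) = I * ((b - z) + c * I) := by ring
  have r2 : (I * ((c * I - z) + a * 1) : ℂ) = ((z.im - c : ℝ) : ℂ) := by
    apply Complex.ext
    · simp
    · simp [hz]
  have r3 : (1 * ((b - z) + d * I) : ℂ) = (b - z) + d * I := by ring
  have r4 : (1 * ((b - z) + c * I) : ℂ) = -I * (I * ((b - z) + c * I)) := by
    linear_combination ((b - z) + c * I) * I_mul_I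
  have r5 : (-I * ((d * I - z) + b * 1) : ℂ) = -I * ((b - z) + d * I) := by ring
  have r6 : (-I * ((d * I - z) + a * 1) : ℂ) = ((d - z.im : ℝ) : ℂ) := by
    apply Complex.ext
    · simp
    · simp [hz]
  rw [r1, r2, r3, r4, r5, r6, ← Complex.ofReal_log (by linarith), ← Complex.ofReal_log (by linarith)]
  have e : (Complex.log (I * ((b - z) + c * I)) - ((Real.log (z.im - c) : ℝ) : ℂ) +
      (Complex.log ((b - z) + d * I) - Complex.log (-I * (I * ((b - z) + c * I)))) -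
      (Complex.log (-I * ((b - z) + d * I)) - ((Real.log (d - z.im) : ℝ) : ℂ)) : ℂ) =
      ((Real.log (d - z.im) - Real.log (z.im - c) : ℝ) : ℂ) + ((Real.pi : ℝ) : ℂ) * I := by
    push_cast
    linear_combination k1 + k4
  rw [e]
  simp

/-- the integral of the logarithmic derivative of a product -/
lemma key {f g : ℂ → ℂ} {Z : Finset ℂ} {n : ℂ → ℕ}
    (hfg : ∀ s, f s = (∏ z ∈ Z, (s - z) ^ n z) * g s) (hn : ∀ z ∈ Z, f z = 0) (γ : ℝ → ℂ)
    (hγ : Continuous γ) (u v : ℝ) (huv : u ≤ v)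
    (hin : ∀ t ∈ Icc u v, AnalyticAt ℂ g (γ t) ∧ f (γ t) ≠ 0) :
    (∫ t in u..v, ld f (γ t)) =
      ∑ z ∈ Z, (n z : ℂ) * (∫ t in u..v, 1 / (γ t - z)) + ∫ t in u..v, ld g (γ t) := by
  have hne : ∀ t ∈ Icc u v, ∀ z ∈ Z, γ t - z ≠ 0 := by
    intro t ht z hz h0
    rw [sub_eq_zero] at h0
    apply (hin t ht).2
    rw [h0]
    exact hn z hz
  have hi1 : ∀ z ∈ Z, IntervalIntegrable (fun t => 1 / (γ t - z)) volume u v := by
    intro z hz
    apply ContinuousOn.intervalIntegrable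
    rw [uIcc_of_le huv]
    exact continuousOn_const.div (hγ.continuousOn.sub continuousOn_const)
      fun t ht => hne t ht z hz
  have hgne : ∀ t ∈ Icc u v, g (γ t) ≠ 0 := by
    intro t ht h0
    apply (hin t ht).2
    rw [hfg, h0, mul_zero]
  have hi2 : IntervalIntegrable (fun t => ld g (γ t)) volume u v := by
    apply ContinuousOn.intervalIntegrable
    rw [uIcc_of_le huv]
    unfold ld
    apply ContinuousOn.div
    · intro t ht
      exact ((hin t ht).1.deriv.continuousAt.comp hγ.continuousAt).continuousWithinAt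
    · intro t ht
      exact ((hin t ht).1.continuousAt.comp hγ.continuousAt).continuousWithinAt
    · exact hgne
  have hsum : IntervalIntegrable (fun t => ∑ z ∈ Z, (n z : ℂ) * (1 / (γ t - z))) volume u v := by
    have h1 := IntervalIntegrable.sum Z (f := fun z t => (n z : ℂ) *
      (1 / (γ t - z))) (μ := volume) (a := u) (b := v)
      (fun z hz => (hi1 z hz).const_mul _)
    convert! h1 using 1
    funext t
    simp
  rw [show (∑ z ∈ Z, (n z : ℂ) * (∫ t in u..v, 1 / (γ t - z))) =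
      ∫ t in u..v, ∑ z ∈ Z, (n z : ℂ) * (1 / (γ t - z)) by
    rw [intervalIntegral.integral_finsetSum (fun z hz => (hi1 z hz).const_mul _)]
    exact Finset.sum_congr rfl fun z _ => (intervalIntegral.integral_const_mul _ _).symm]
  rw [← intervalIntegral.integral_add hsum hi2]
  apply intervalIntegral.integral_congr
  intro t ht
  rw [uIcc_of_le huv] at ht
  exact factor_logDeriv hfg (hin t ht).1.differentiableAt (hin t ht).2

lemma zc_eq {f : ℂ → ℂ} {S : Set ℂ} (Z : Finset ℂ) (h : ∀ ρ, ρ ∈ Z ↔ ρ ∈ S ∧ f ρ = 0) :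
    zc f S = ∑ ρ ∈ Z, (analyticOrderNatAt f ρ : ℝ) := by
  unfold zc
  have h1 : {ρ : ℂ | ρ ∈ S ∧ f ρ = 0} = (Z : Set ℂ) := by
    ext ρ
    exact (h ρ).symm
  rw [h1]
  exact finsum_mem_coe_finset _ _

theorem pf_AG : T_AG := by
  classical
  intro G a b c d U hab hcd hUo hU hd hR hhor hright
  have hdOn : DifferentiableOn ℂ G U := fun s hs => (hd s hs).differentiableWithinAt
  have hG : AnalyticOnNhd ℂ G U := hdOn.analyticOnNhd hUo
  have hs0 : G (b + c * I) ≠ 0 := hright c ⟨le_refl _, hcd.le⟩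
  have hs0U : (b + c * I : ℂ) ∈ U := by
    apply hR <;> simp <;> linarith
  have hcomp : IsCompact (Icc a b ×ℂ Icc c d) := isCompact_Icc.reProdIm isCompact_Icc
  have hfin0 := zeros_finite hU hG hs0U hs0 hcomp (by
    intro s hs
    rw [mem_reProdIm] at hs
    exact hR s hs.1.1 hs.1.2 hs.2.1 hs.2.2)
  have hfin : {ρ : ℂ | a ≤ ρ.re ∧ ρ.re ≤ b ∧ c ≤ ρ.im ∧ ρ.im ≤ d ∧ G ρ = 0}.Finite := by
    refine hfin0.subset ?_
    rintro z ⟨h1, h2, h3, h4, h5⟩
    exact ⟨mem_reProdIm.2 ⟨⟨h1, h2⟩, h3, h4⟩, h5⟩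
  refine ⟨hfin, ?_⟩
  -- the zeros on the left side
  have hfinL : {ρ : ℂ | (ρ.re = a ∧ c < ρ.im ∧ ρ.im < d) ∧ G ρ = 0}.Finite := by
    refine hfin.subset ?_
    rintro z ⟨⟨h1, h2, h3⟩, h4⟩
    exact ⟨h1.ge, h1.le.trans hab.le, h2.le, h3.le, h4⟩
  have hfinI : {ρ : ℂ | (a < ρ.re ∧ ρ.re < b ∧ c < ρ.im ∧ ρ.im < d) ∧ G ρ = 0}.Finite := by
    refine hfin.subset ?_
    rintro z ⟨⟨h1, h2, h3, h4⟩, h5⟩
    exact ⟨h1.le, h2.le, h3.le, h4.le, h5⟩
  set Z0 := hfinL.toFinset with hZ0def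
  set Z1 := hfinI.toFinset with hZ1def
  have hZ0 : ∀ z : ℂ, z ∈ Z0 ↔ z ∈ {ρ : ℂ | ρ.re = a ∧ c < ρ.im ∧ ρ.im < d} ∧ G z = 0 := by
    intro z
    rw [hZ0def, Set.Finite.mem_toFinset]
    rfl
  have hZ1 : ∀ z : ℂ, z ∈ Z1 ↔
      z ∈ {ρ : ℂ | a < ρ.re ∧ ρ.re < b ∧ c < ρ.im ∧ ρ.im < d} ∧ G z = 0 := by
    intro z
    rw [hZ1def, Set.Finite.mem_toFinset]
    rfl
  have htop : ∀ z ∈ U, analyticOrderAt G z ≠ ⊤ := fun z hz => order_ne_top hU hG hs0U hs0 hz
  have hZ0U : ∀ z ∈ Z0, z ∈ U := by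
    intro z hz
    obtain ⟨⟨h1, h2, h3⟩, -⟩ := (hZ0 z).1 hz
    exact hR z h1.ge (h1.le.trans hab.le) h2.le h3.le
  obtain ⟨g, hg, hfg, hgz⟩ := factor (U := U) (fun s hs => hG s hs) Z0
    (fun z hz => ⟨hZ0U z hz, htop z (hZ0U z hz)⟩)
  have hG0 : ∀ s, g s = 0 → G s = 0 := fun s h => by rw [hfg s, h, mul_zero]
  -- the sides
  have hbU : ∀ x ∈ Icc a b, ((x : ℂ) + c * I) ∈ U := fun x hx => by
    apply hR
    · simpa using hx.1
    · simpa using hx.2
    · simp
    · simpa using hcd.le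
  have htU : ∀ x ∈ Icc a b, ((x : ℂ) + d * I) ∈ U := fun x hx => by
    apply hR
    · simpa using hx.1
    · simpa using hx.2
    · simpa using hcd.le
    · simp
  have hlU : ∀ t ∈ Icc c d, ((a : ℂ) + t * I) ∈ U := fun x hx => by
    apply hR
    · simp
    · simpa using hab.le
    · simpa using hx.1
    · simpa using hx.2
  have hrU : ∀ t ∈ Icc c d, ((b : ℂ) + t * I) ∈ U := fun x hx => by
    apply hR
    · simpa using hab.le
    · simp
    · simpa using hx.1
    · simpa using hx.2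
  have hgl : ∀ t ∈ Icc c d, g (a + t * I) ≠ 0 := by
    intro t ht h0
    have h1 := hG0 _ h0
    rcases eq_or_lt_of_le ht.1 with h2 | h2
    · apply (hhor a ⟨le_refl _, hab.le⟩).1
      rw [h2]
      exact h1
    rcases eq_or_lt_of_le ht.2 with h3 | h3
    · apply (hhor a ⟨le_refl _, hab.le⟩).2
      rw [← h3]
      exact h1
    exact hgz _ ((hZ0 _).2 ⟨⟨by simp, by simpa using h2, by simpa using h3⟩, h1⟩) h0
  have hgr : ∀ t ∈ Icc c d, g (b + t * I) ≠ 0 := fun t ht h0 => hright t ht (hG0 _ h0)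
  have hgb : ∀ x ∈ Icc a b, g (x + c * I) ≠ 0 ∧ g (x + d * I) ≠ 0 := fun x hx =>
    ⟨fun h0 => (hhor x hx).1 (hG0 _ h0), fun h0 => (hhor x hx).2 (hG0 _ h0)⟩
  have hcont : ∀ {f : ℂ → ℂ} {γ : ℝ → ℂ} {u v : ℝ}, Continuous γ →
      (∀ t ∈ Icc u v, AnalyticAt ℂ f (γ t) ∧ f (γ t) ≠ 0) →
      ContinuousOn (fun t => ld f (γ t)) (Icc u v) := by
    intro f γ u v hγ h
    unfold ld
    apply ContinuousOn.div
    · intro t ht
      exact ((h t ht).1.deriv.continuousAt.comp hγ.continuousAt).continuousWithinAt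
    · intro t ht
      exact ((h t ht).1.continuousAt.comp hγ.continuousAt).continuousWithinAt
    · exact fun t ht => (h t ht).2
  have cb : ∀ y : ℝ, Continuous fun x : ℝ => (x : ℂ) + y * I := fun y => by fun_prop
  have cr : ∀ y : ℝ, Continuous fun t : ℝ => (y : ℂ) + t * I := fun y => by fun_prop
  -- the orders of g inside
  have hg1 : ∀ z : ℂ, z ∈ Z1 ↔ a < z.re ∧ z.re < b ∧ c < z.im ∧ z.im < d ∧ g z = 0 := by
    intro z
    rw [hZ1 z]
    constructor
    · rintro ⟨⟨h1, h2, h3, h4⟩, h5⟩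
      refine ⟨h1, h2, h3, h4, ?_⟩
      rw [hfg z] at h5
      refine (mul_eq_zero.1 h5).resolve_left ?_
      apply Finset.prod_ne_zero_iff.2
      intro w hw
      apply pow_ne_zero
      rw [sub_ne_zero]
      rintro rfl
      exact h1.ne' ((hZ0 _).1 hw).1.1
    · rintro ⟨h1, h2, h3, h4, h5⟩
      exact ⟨⟨h1, h2, h3, h4⟩, hG0 _ h5⟩
  have hord : ∀ z ∈ Z1, analyticOrderAt g z = analyticOrderAt G z := by
    intro z hz
    obtain ⟨⟨h1, h2, h3, h4⟩, h5⟩ := (hZ1 z).1 hz
    have hP : AnalyticAt ℂ (fun s => ∏ w ∈ Z0, (s - w) ^ analyticOrderNatAt G w) z := by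
      fun_prop
    have hPne : (fun s => ∏ w ∈ Z0, (s - w) ^ analyticOrderNatAt G w) z ≠ 0 := by
      apply Finset.prod_ne_zero_iff.2
      intro w hw
      apply pow_ne_zero
      rw [sub_ne_zero]
      rintro rfl
      exact h1.ne' ((hZ0 _).1 hw).1.1
    have e1 : G = (fun s => ∏ w ∈ Z0, (s - w) ^ analyticOrderNatAt G w) * g := funext hfg
    have e2 := analyticOrderAt_mul hP (hg z (hR z h1.le h2.le h3.le h4.le))
    rw [← e1, hP.analyticOrderAt_eq_zero.2 hPne, zero_add] at e2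
    exact e2.symm
  -- the residue theorem for g
  have hres := weighted_residue rc (K := fun _ => (1 : ℂ)) (differentiable_const _) hab hcd
    (f := g) (U := U) hg hR Z1 hg1 (fun z hz => by
      rw [hord z hz]
      obtain ⟨⟨h1, h2, h3, h4⟩, h5⟩ := (hZ1 z).1 hz
      exact htop z (hR z h1.le h2.le h3.le h4.le)) hgb (fun t ht => ⟨hgl t ht, hgr t ht⟩)
  simp only [one_mul, mul_one] at hres
  have hres2 : cp (ld g) a b c d - I * (∫ t in c..d, ld g (a + t * I)) =
      2 * Real.pi * I * ∑ z ∈ Z1, (analyticOrderNatAt g z : ℂ) := hres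
  have him := congrArg Complex.im hres2
  have q0 : (2 * Real.pi * I * ∑ z ∈ Z1, (analyticOrderNatAt g z : ℂ)).im =
      2 * Real.pi * ∑ z ∈ Z1, (analyticOrderNatAt G z : ℝ) := by
    have e1 : (2 * Real.pi * I * ∑ z ∈ Z1, (analyticOrderNatAt g z : ℂ) : ℂ) =
        ((2 * Real.pi * ∑ z ∈ Z1, (analyticOrderNatAt G z : ℝ) : ℝ) : ℂ) * I := by
      push_cast
      rw [show ∑ z ∈ Z1, (analyticOrderNatAt g z : ℂ) = ∑ z ∈ Z1, (analyticOrderNatAt G z : ℂ) from
        Finset.sum_congr rfl fun z hz => by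
          unfold analyticOrderNatAt
          rw [hord z hz]]
      ring
    rw [e1]
    simp
  rw [q0, sub_im, I_mul_im] at him
  have cl : ContinuousOn (fun t : ℝ => ld g (a + t * I)) (Icc c d) :=
    hcont (cr a) fun t ht => ⟨hg _ (hlU t ht), hgl t ht⟩
  rw [re_integral (by rwa [uIcc_of_le hcd.le])] at him
  -- G and g on the three sides
  have hn : ∀ z ∈ Z0, G z = 0 := fun z hz => ((hZ0 z).1 hz).2
  have k1 := key hfg hn (fun x : ℝ => (x : ℂ) + c * I) (cb c) a b hab.le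
    (fun x hx => ⟨hg _ (hbU x hx), (hhor x hx).1⟩)
  have k2 := key hfg hn (fun t : ℝ => (b : ℂ) + t * I) (cr b) c d hcd.le
    (fun x hx => ⟨hg _ (hrU x hx), hright x hx⟩)
  have k3 := key hfg hn (fun x : ℝ => (x : ℂ) + d * I) (cb d) a b hab.le
    (fun x hx => ⟨hg _ (htU x hx), (hhor x hx).2⟩)
  have hcp : cp (ld G) a b c d = ∑ z ∈ Z0, (analyticOrderNatAt G z : ℂ) *
      cp (fun s => 1 / (s - z)) a b c d + cp (ld g) a b c d := by
    have e1 : ∑ z ∈ Z0, (analyticOrderNatAt G z : ℂ) * cp (fun s => 1 / (s - z)) a b c d =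
        ∑ z ∈ Z0, (analyticOrderNatAt G z : ℂ) * (∫ x in a..b, 1 / ((x : ℂ) + c * I - z)) +
        I * ∑ z ∈ Z0, (analyticOrderNatAt G z : ℂ) * (∫ t in c..d, 1 / ((b : ℂ) + t * I - z)) -
        ∑ z ∈ Z0, (analyticOrderNatAt G z : ℂ) * (∫ x in a..b, 1 / ((x : ℂ) + d * I - z)) := by
      rw [Finset.mul_sum, ← Finset.sum_add_distrib, ← Finset.sum_sub_distrib]
      refine Finset.sum_congr rfl fun z _ => ?_
      unfold cp
      ring
    rw [e1]
    unfold cp
    rw [k1, k2, k3]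
    ring
  have hrp : rp G a b c d = Real.pi * ∑ z ∈ Z0, (analyticOrderNatAt G z : ℝ) +
      (cp (ld g) a b c d).im := by
    have e1 : rp G a b c d = (cp (ld G) a b c d).im := by
      rw [cp_im hab.le hcd.le]
      · rfl
      · exact hcont (cb c) fun x hx => ⟨hG _ (hbU x hx), (hhor x hx).1⟩
      · exact hcont (cr b) fun x hx => ⟨hG _ (hrU x hx), hright x hx⟩
      · exact hcont (cb d) fun x hx => ⟨hG _ (htU x hx), (hhor x hx).2⟩
    rw [e1, hcp, add_im, Complex.im_sum, Finset.mul_sum]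
    congr 1
    refine Finset.sum_congr rfl fun z hz => ?_
    obtain ⟨⟨h1, h2, h3⟩, -⟩ := (hZ0 z).1 hz
    rw [← Complex.ofReal_natCast, Complex.im_ofReal_mul, cp_lin hab h1 h2 h3, mul_comm]
  refine ⟨fun t => (ld g (a + t * I)).re, Complex.continuous_re.comp_continuousOn cl, ?_, ?_⟩
  · intro t ht hne
    have e1 : ld G (a + t * I) = _ := factor_logDeriv hfg (hg _ (hlU t ht)).differentiableAt hne
    show (ld g (a + t * I)).re = _
    rw [e1, add_re, Complex.re_sum, Finset.sum_eq_zero, zero_add]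
    · rfl
    · intro z hz
      obtain ⟨⟨h1, h2, h3⟩, -⟩ := (hZ0 z).1 hz
      rw [← Complex.ofReal_natCast, Complex.re_ofReal_mul]
      have e2 : (a + t * I - z : ℂ) = ((t - z.im : ℝ) : ℂ) * I := by
        apply Complex.ext
        · simp [h1]
        · simp
      rw [e2]
      simp
  · show (∫ t in c..d, (ld g (a + t * I)).re) = _
    rw [zc_eq Z0 hZ0, zc_eq Z1 hZ1, hrp]
    linarith

end Pool.Agent.H68.CRZ
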